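import Pool.Agent.H44.V0P.S
import Pool.Agent.H50.V0F.Rwe

/-!
# The rows of the pair

`rowp`: the digits of the heights of the two places of equal slopes over the charts of `w`, given the
positions of the slope-one places over the charts of an earlier window `b`. The exact positions of
the slope-one places are inserted, then the digits of `c k` (full behind its natural digits), then
the exact position of `c k`. `rwp`: the form on parts of the event.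
-/

set_option autoImplicit false

namespace Pool.V0Q

open Finset Real MvPolynomial
open Pool.Agent.H49.Ent Pool.Agent.H32.Dense Pool.STK Pool.KA Pool.KSAT Pool.K2S Pool.PB Pool.GEN
open Pool.S6C Pool.RCD Pool.LA91 Pool.AVG96 Pool.OWN68 Pool.V0F
open Pool.UNJ (ceI)

variable {m : ℕ}

theorem mn4 {a b c d : ℝ} (ha : 0 < a) (hb : 0 < b) (hc : 0 < c) (hd : 0 < d) :
    ∃ e : ℝ, 0 < e ∧ e ≤ a ∧ e ≤ b ∧ e ≤ c ∧ e ≤ d :=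
  ⟨min (min a b) (min c d), lt_min (lt_min ha hb) (lt_min hc hd),
    (min_le_left _ _).trans (min_le_left _ _), (min_le_left _ _).trans (min_le_right _ _),
    (min_le_right _ _).trans (min_le_left _ _), (min_le_right _ _).trans (min_le_right _ _)⟩

/-- **Digits** behind the natural ones of the window `x` and before those of `x'`. -/
theorem dgs {S : PCl m} {c : ℕ → Fin m} {k : ℕ} {sn : ℕ → ℝ → ℝ} {G : Set ℝ} {b o φ : ℝ}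
    (L : Lad S c k sn G b o φ) {w x x' : ℝ} {n : ℕ → ℝ} (hw : w ∈ G) (hx : x ∈ G) (hx' : x' ∈ G)
    (hbw : b ≤ w) (hwx : w ≤ x) (hxx : x + 100 * ((k : ℝ) + 2) * φ ≤ x') (hxo : x' ≤ o)
    (hn : ∀ i < k, sn i x' ≤ n i ∧ n i ≤ 1) (tp : Tp k sn b φ n) :
    ∃ n' : ℕ → ℝ, Nst k sn w φ n' ∧ (∀ i < k, sn i x + 20 * φ ≤ n' i) ∧
      (∀ i < k, n' i ≤ 1) ∧ Tp k sn b φ n' ∧
      ∀ i < k, (x' - w) - 28 * ((k : ℝ) + 1) * φ ≤ n' i - sn i w := by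
  have hφ := L.φ0
  have hk0 : (0 : ℝ) ≤ k := Nat.cast_nonneg k
  have hkφ : 0 ≤ (k : ℝ) * φ := by positivity
  have hwx' : w ≤ x' := by nlinarith
  have hxo' : x ≤ o := by nlinarith
  have hwo : w ≤ o := hwx.trans hxo'
  have hx'1 : x' ≤ 1 := (hxo.trans_lt L.o1).le
  obtain ⟨n', hn'⟩ : ∃ n' : ℕ → ℝ, n' = fun i => sn i x' - ((i : ℝ) + 1) * (26 * φ) := ⟨_, rfl⟩
  have hni : ∀ i, n' i = sn i x' - ((i : ℝ) + 1) * (26 * φ) := fun i => by rw [hn']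
  have hir : ∀ i < k, ((i : ℝ) + 1) * (26 * φ) ≤ k * (26 * φ) := fun i hi => by
    have : (i : ℝ) + 1 ≤ k := by exact_mod_cast hi
    exact mul_le_mul_of_nonneg_right this (by positivity)
  have hi0 : ∀ i : ℕ, 26 * φ ≤ ((i : ℝ) + 1) * (26 * φ) := fun i => by
    have : (0 : ℝ) ≤ i * (26 * φ) := by positivity
    linarith
  have hfl : ∀ i < k, |(sn i x' - x') - (sn i w - w)| ≤ 2 * φ := fun i hi =>
    L.flat hi hx' hw (hbw.trans hwx') hxo hbw hwo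
  have hflx : ∀ i < k, |(sn i x' - x') - (sn i x - x)| ≤ 2 * φ := fun i hi =>
    L.flat hi hx' hx (hbw.trans hwx') hxo (hbw.trans hwx) hxo'
  have hle : ∀ i < k, n' i ≤ n i := fun i hi => by
    rw [hni]
    linarith [(hn i hi).1, hi0 i]
  refine ⟨n', ⟨fun i hi => ?_, fun i hi => ?_, fun i hi l hl => ?_⟩, fun i hi => ?_, fun i hi =>
    (hle i hi).trans (hn i hi).2, ⟨fun i hi => ?_, fun i hi l hl => ?_⟩, fun i hi => ?_⟩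
  · have a := abs_le.1 (hfl i hi)
    rw [hni]
    linarith [hir i hi, a.1]
  · have a := abs_le.1 (hfl i hi)
    rw [hni]
    linarith [hi0 i, a.2]
  · have a := abs_le.1 (hfl i hi)
    have a' := abs_le.1 (hfl l (by omega))
    rw [hni, hni]
    have e1 : ((l : ℝ) + 1) * (26 * φ) + 26 * φ ≤ ((i : ℝ) + 1) * (26 * φ) := by
      have : (l : ℝ) + 1 ≤ i := by exact_mod_cast hl
      have := mul_le_mul_of_nonneg_right this (show 0 ≤ 26 * φ by positivity)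
      linarith
    linarith [a.1, a.2, a'.1, a'.2]
  · have a := abs_le.1 (hflx i hi)
    rw [hni]
    linarith [hir i hi, a.1]
  · linarith [tp.t0 i hi, hle i hi]
  · linarith [tp.t1 i hi l hl, hle i hi]
  · have a := abs_le.1 (hfl i hi)
    rw [hni]
    linarith [hir i hi, a.1]

/-- **The entropies of the rows of the pair.** -/
theorem rowp_ent {Ω : Type} [Fintype Ω] {q : Ω → ℝ} (h0 : ∀ ω, 0 ≤ q ω)
    {T₁ T₂ T₃ T₄ T₅ T₆ T₇ T₈ T₉ T₁₀ T₁₁ T₁₂ T₁₃ T₁₄ T₁₅ T₁₆ T₁₇ : Type}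
    {u₁ : Ω → T₁} {u₂ : Ω → T₂} {v₁ : Ω → T₃} {v₂ : Ω → T₄} {u : Ω → T₅} {us : Ω → T₆}
    {X0 : Ω → T₇} {Xk : Ω → T₈} {D₁ : Ω → T₉} {D₂ : Ω → T₁₀} {E₁ : Ω → T₁₁} {E₂ : Ω → T₁₂}
    {z : Ω → T₁₃} {z' : Ω → T₁₄} {zx : Ω → T₁₅} {zb : Ω → T₁₆} {W : Ω → T₁₇}
    {a s₀ s₁ dQ dJ dP f : ℝ} (hzx' : Det q z' z) (hzx : Det q zx z) (hbx : Det q zx zb)
    (hzb : CH q zb z ≤ a)
    (b1 : s₁ ≤ CH q X0 (fun ω => (u ω, (z' ω, W ω))))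
    (b2 : CH q X0 (fun ω => (u ω, (zb ω, W ω))) ≤ s₀)
    (b3 : CH q u (fun ω => (X0 ω, (zb ω, W ω))) ≤ a)
    (c1 : CH q u₂ (fun ω => (z' ω, W ω)) ≤ a) (c2 : CH q u₁ (fun ω => (z' ω, W ω)) ≤ a)
    (c3 : CH q v₂ (fun ω => (z' ω, W ω)) ≤ a) (c4 : CH q v₁ (fun ω => (z' ω, W ω)) ≤ a)
    (d1 : CH q D₁ (fun ω => (v₁ ω, (X0 ω, (z ω, W ω)))) ≤ a)
    (d2 : CH q D₂ (fun ω => (D₁ ω, X0 ω)) ≤ dQ)
    (d3 : CH q v₂ (fun ω => (D₂ ω, (X0 ω, (z ω, W ω)))) ≤ a)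
    (d4 : CH q D₂ (fun ω => (v₂ ω, (X0 ω, (z ω, W ω)))) ≤ a)
    (d5 : CH q Xk (fun ω => (D₂ ω, X0 ω)) ≤ dJ)
    (e1 : CH q E₁ (fun ω => (u₁ ω, ((X0 ω, Xk ω), (z ω, W ω)))) ≤ a)
    (e2 : CH q E₂ (fun ω => (E₁ ω, ((X0 ω, Xk ω), W ω))) ≤ dP)
    (e3 : CH q u₂ (fun ω => (E₂ ω, ((X0 ω, Xk ω), (z ω, W ω)))) ≤ a)
    (g0 : CH q us (fun ω => (X0 ω, (zb ω, W ω))) ≤ a)
    (g1 : CH q u₂ (fun ω => (us ω, (zx ω, W ω))) ≤ a)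
    (g2 : CH q u₁ (fun ω => (us ω, (zx ω, W ω))) ≤ a)
    (g3 : CH q v₂ (fun ω => (us ω, (zx ω, W ω))) ≤ a)
    (g4 : CH q v₁ (fun ω => (us ω, (zx ω, W ω))) ≤ a)
    (hf : f ≤ CH q Xk (fun ω => (X0 ω, (zx ω, W ω)))) :
    CH q (fun ω => (u₂ ω, v₂ ω)) (fun ω => ((u₁ ω, v₁ ω), (u ω, (z ω, W ω)))) ≤
      (s₀ - s₁) + dQ + dJ + dP - f + 16 * a := by
  have b3' : 0 ≤ a := (CH_nonneg h0 _ _).trans hzb
  obtain ⟨A₂, hA₂⟩ : ∃ A₂ : Ω → T₂ × T₄, A₂ = fun ω => (u₂ ω, v₂ ω) := ⟨_, rfl⟩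
  obtain ⟨A₁, hA₁⟩ : ∃ A₁ : Ω → T₁ × T₃, A₁ = fun ω => (u₁ ω, v₁ ω) := ⟨_, rfl⟩
  obtain ⟨Y, hY⟩ : ∃ Y : Ω → (T₁ × T₃) × (T₅ × (T₁₃ × T₁₇)),
    Y = fun ω => ((u₁ ω, v₁ ω), (u ω, (z ω, W ω))) := ⟨_, rfl⟩
  obtain ⟨C', hC'⟩ : ∃ C' : Ω → T₅ × (T₁₄ × T₁₇), C' = fun ω => (u ω, (z' ω, W ω)) := ⟨_, rfl⟩
  obtain ⟨C₀, hC₀⟩ : ∃ C₀ : Ω → T₇ × (T₁₅ × T₁₇), C₀ = fun ω => (X0 ω, (zx ω, W ω)) := ⟨_, rfl⟩
  obtain ⟨B, hB⟩ : ∃ B : Ω → T₄ × (T₇ × ((T₁ × T₃) × (T₅ × (T₁₃ × T₁₇)))),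
    B = fun ω => (v₂ ω, (X0 ω, Y ω)) := ⟨_, rfl⟩
  rw [← hA₂, ← hY]
  -- the exact positions of the slope-one places are inserted
  have t1 := CH_exch h0 A₂ X0 Y
  have t2 := CH_le_add h0 X0 zb Y
  have t3 : CH q zb Y ≤ CH q zb z := CH_mono_cond h0 fun ω ω' _ _ e => by
    rw [hY] at e
    simp only [Prod.mk.injEq] at e
    exact e.2.2.1
  have t4 : CH q X0 (fun ω => (zb ω, Y ω)) ≤ CH q X0 (fun ω => (u ω, (zb ω, W ω))) :=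
    CH_mono_cond h0 fun ω ω' _ _ e => by
      rw [hY] at e
      simp only [Prod.mk.injEq] at e ⊢
      exact ⟨e.2.2.1, e.1, e.2.2.2.2⟩
  have t5 : CH q X0 (fun ω => ((A₂ ω, A₁ ω), C' ω)) ≤ CH q X0 (fun ω => (A₂ ω, Y ω)) :=
    CH_mono_cond h0 fun ω ω' hω hω' e => by
      rw [hC', hA₁] at e
      rw [hY]
      simp only [Prod.mk.injEq] at e ⊢
      exact ⟨e.1.1, e.1.2, e.2.1, hzx' ω ω' hω hω' e.2.2.1, e.2.2.2⟩
  have t6 := CH_le_add h0 X0 (fun ω => (A₂ ω, A₁ ω)) C'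
  have t7 := CH_subadd h0 A₂ A₁ C'
  have t8 : CH q A₂ C' ≤ CH q u₂ C' + CH q v₂ C' := by
    rw [hA₂]
    exact CH_subadd h0 u₂ v₂ C'
  have t9 : CH q A₁ C' ≤ CH q u₁ C' + CH q v₁ C' := by
    rw [hA₁]
    exact CH_subadd h0 u₁ v₁ C'
  have hC'W : ∀ {T : Type} (f : Ω → T), CH q f C' ≤ CH q f (fun ω => (z' ω, W ω)) := fun f =>
    CH_mono_cond h0 fun ω ω' _ _ e => by
      rw [hC'] at e
      exact (Prod.ext_iff.mp e).2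
  have t10 := hC'W u₂
  have t11 := hC'W v₂
  have t12 := hC'W u₁
  have t13 := hC'W v₁
  rw [← hC'] at b1
  -- the digits of the place `c k`
  have r0 : CH q A₂ (fun ω => (X0 ω, Y ω)) = CH q v₂ (fun ω => (X0 ω, Y ω)) + CH q u₂ B := by
    rw [hA₂, hB]
    exact CH_chain h0 u₂ v₂ _
  have r1 := CH_le_add h0 v₂ D₁ (fun ω => (X0 ω, Y ω))
  have r2 := CH_le_add h0 v₂ D₂ (fun ω => (D₁ ω, (X0 ω, Y ω)))
  have r3 : CH q D₁ (fun ω => (X0 ω, Y ω)) ≤ CH q D₁ (fun ω => (v₁ ω, (X0 ω, (z ω, W ω)))) :=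
    CH_mono_cond h0 fun ω ω' _ _ e => by
      rw [hY] at e
      simp only [Prod.mk.injEq] at e ⊢
      exact ⟨e.2.1.2, e.1, e.2.2.2⟩
  have r4 : CH q D₂ (fun ω => (D₁ ω, (X0 ω, Y ω))) ≤ CH q D₂ (fun ω => (D₁ ω, X0 ω)) :=
    CH_mono_cond h0 fun ω ω' _ _ e => by
      simp only [Prod.mk.injEq] at e ⊢
      exact ⟨e.1, e.2.1⟩
  have r5 : CH q v₂ (fun ω => (D₂ ω, (D₁ ω, (X0 ω, Y ω)))) ≤
      CH q v₂ (fun ω => (D₂ ω, (X0 ω, (z ω, W ω)))) := CH_mono_cond h0 fun ω ω' _ _ e => by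
    rw [hY] at e
    simp only [Prod.mk.injEq] at e ⊢
    exact ⟨e.1, e.2.2.1, e.2.2.2.2.2⟩
  -- the exact position of the place `c k` is inserted
  have s1 := CH_exch h0 u₂ Xk B
  have s2 := CH_le_add h0 Xk D₂ B
  have s3 : CH q D₂ B ≤ CH q D₂ (fun ω => (v₂ ω, (X0 ω, (z ω, W ω)))) :=
    CH_mono_cond h0 fun ω ω' _ _ e => by
      rw [hB, hY] at e
      simp only [Prod.mk.injEq] at e ⊢
      exact ⟨e.1, e.2.1, e.2.2.2.2⟩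
  have s4 : CH q Xk (fun ω => (D₂ ω, B ω)) ≤ CH q Xk (fun ω => (D₂ ω, X0 ω)) :=
    CH_mono_cond h0 fun ω ω' _ _ e => by
      rw [hB] at e
      simp only [Prod.mk.injEq] at e ⊢
      exact ⟨e.1, e.2.2.1⟩
  have s5 := CH_le_add h0 u₂ E₁ (fun ω => (Xk ω, B ω))
  have s6 := CH_le_add h0 u₂ E₂ (fun ω => (E₁ ω, (Xk ω, B ω)))
  have s7 : CH q E₁ (fun ω => (Xk ω, B ω)) ≤
      CH q E₁ (fun ω => (u₁ ω, ((X0 ω, Xk ω), (z ω, W ω)))) :=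
    CH_mono_cond h0 fun ω ω' _ _ e => by
      rw [hB, hY] at e
      simp only [Prod.mk.injEq] at e ⊢
      exact ⟨e.2.2.2.1.1, ⟨e.2.2.1, e.1⟩, e.2.2.2.2.2⟩
  have s8 : CH q E₂ (fun ω => (E₁ ω, (Xk ω, B ω))) ≤
      CH q E₂ (fun ω => (E₁ ω, ((X0 ω, Xk ω), W ω))) :=
    CH_mono_cond h0 fun ω ω' _ _ e => by
      rw [hB, hY] at e
      simp only [Prod.mk.injEq] at e ⊢
      exact ⟨e.1, ⟨e.2.2.2.1, e.2.1⟩, e.2.2.2.2.2.2.2⟩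
  have s9 : CH q u₂ (fun ω => (E₂ ω, (E₁ ω, (Xk ω, B ω)))) ≤
      CH q u₂ (fun ω => (E₂ ω, ((X0 ω, Xk ω), (z ω, W ω)))) :=
    CH_mono_cond h0 fun ω ω' _ _ e => by
      rw [hB, hY] at e
      simp only [Prod.mk.injEq] at e ⊢
      exact ⟨e.1, ⟨e.2.2.2.2.1, e.2.2.1⟩, e.2.2.2.2.2.2.2⟩
  -- the position of `c k` is full given all this
  obtain ⟨R, hR⟩ : ∃ R : Ω → (T₂ × T₄) × ((T₁ × T₃) × T₅), R = fun ω =>
    (A₂ ω, (A₁ ω, u ω)) := ⟨_, rfl⟩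
  have f1 : CH q Xk (fun ω => (R ω, C₀ ω)) ≤ CH q Xk (fun ω => (u₂ ω, B ω)) :=
    CH_mono_cond h0 fun ω ω' hω hω' e => by
      rw [hR, hA₂, hA₁, hC₀] at e
      rw [hB, hY]
      simp only [Prod.mk.injEq] at e ⊢
      exact ⟨e.1.1.1, e.1.1.2, e.2.1, ⟨e.1.2.1.1, e.1.2.1.2⟩, e.1.2.2,
        hzx ω ω' hω hω' e.2.2.1, e.2.2.2⟩
  have f2 := CH_le_add h0 Xk R C₀
  have f3 := CH_le_add h0 R us C₀
  have f4 : CH q us C₀ ≤ CH q us (fun ω => (X0 ω, (zb ω, W ω))) :=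
    CH_mono_cond h0 fun ω ω' hω hω' e => by
      rw [hC₀] at e
      simp only [Prod.mk.injEq] at e ⊢
      exact ⟨e.1, hbx ω ω' hω hω' e.2.1, e.2.2⟩
  obtain ⟨C₁, hC₁⟩ : ∃ C₁ : Ω → T₆ × (T₇ × (T₁₅ × T₁₇)), C₁ = fun ω => (us ω, C₀ ω) := ⟨_, rfl⟩
  have f5 : CH q R C₁ ≤ CH q A₂ C₁ + (CH q A₁ C₁ + CH q u C₁) := by
    have a1 := CH_subadd h0 A₂ (fun ω => (A₁ ω, u ω)) C₁
    have a2 := CH_subadd h0 A₁ u C₁
    rw [hR]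
    linarith
  have f6 : CH q A₂ C₁ ≤ CH q u₂ C₁ + CH q v₂ C₁ := by
    rw [hA₂]
    exact CH_subadd h0 u₂ v₂ C₁
  have f7 : CH q A₁ C₁ ≤ CH q u₁ C₁ + CH q v₁ C₁ := by
    rw [hA₁]
    exact CH_subadd h0 u₁ v₁ C₁
  have f8 : CH q u C₁ ≤ CH q u (fun ω => (X0 ω, (zb ω, W ω))) :=
    CH_mono_cond h0 fun ω ω' hω hω' e => by
      rw [hC₁, hC₀] at e
      simp only [Prod.mk.injEq] at e ⊢
      exact ⟨e.2.1, hbx ω ω' hω hω' e.2.2.1, e.2.2.2⟩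
  have hC₁W : ∀ {T : Type} (f : Ω → T), CH q f C₁ ≤ CH q f (fun ω => (us ω, (zx ω, W ω))) :=
    fun f => CH_mono_cond h0 fun ω ω' _ _ e => by
      rw [hC₁, hC₀] at e
      simp only [Prod.mk.injEq] at e ⊢
      exact ⟨e.1, e.2.2⟩
  have f9 := hC₁W u₂
  have f10 := hC₁W v₂
  have f11 := hC₁W u₁
  have f12 := hC₁W v₁
  rw [← hC₀] at hf
  rw [← hC₁] at f3
  linarith only [t1, t2, t3, t4, t5, t6, t7, t8, t9, t10, t11, t12, t13, r0, r1, r2, r3, r4, r5,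
    s1, s2, s3, s4, s5, s6, s7, s8, s9, f1, f2, f3, f4, f5, f6, f7, f8, f9, f10, f11, f12, hzb,
    b1, b2, b3, c1, c2, c3, c4, d1, d2, d3, d4, d5, e1, e2, e3, g0, g1, g2, g3, g4, hf, b3']

/-- **(ROWP)** The digits `P₁, …, P₂` of the height of `c (k + 1)` and `Q₁, …, Q₂` of `c k` over the
charts of `w`, given the positions of the slope-one places over the charts of `b`. -/
theorem rowp (h0 : Nu0pStmt) (hN : NuppStmt) {S : PCl m} {c : ℕ → Fin m} {k : ℕ}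
    {sn : ℕ → ℝ → ℝ} {G : Set ℝ} {b o φ : ℝ} (L : LadP S c k sn G b o φ)
    (hI : (range (k + 1)).image c = univ.erase (c (k + 1))) {w x x' : ℝ} {p n : ℕ → ℝ}
    {pN pU P₁ P₂ Q₁ Q₂ h δ rk E Cr : ℝ} (hCr : 100 * ((k : ℝ) + 2) ^ 2 ≤ Cr) (hw : w ∈ G)
    (hx : x ∈ G) (hx' : x' ∈ G) (hbw : b ≤ w) (hwx : w ≤ x) (hxx : x + Cr * φ ≤ x')
    (hxo : x' ≤ o) (hx1 : x' + Cr * φ ≤ 1) (hp : ∀ i < k, sn i b - φ ≤ p i)
    (hpN : sn (k + 1) w - φ ≤ pN) (hpU : sn k w - φ ≤ pU)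
    (hn : ∀ i < k, sn i x' ≤ n i ∧ n i ≤ 1) (tp : Tp k sn b φ n) (hP0 : 0 ≤ P₁) (hP : P₁ ≤ P₂)
    (hQ0 : 0 ≤ Q₁) (hQ : Q₁ ≤ Q₂) (hQ1 : Q₂ ≤ 1) (hPx : P₂ + Cr * φ ≤ sn (k + 1) x)
    (hPw : P₂ + Cr * φ ≤ sn (k + 1) w + (x' - w)) (hQl : sn k x ≤ Q₂ + 2 * Cr * φ)
    (hQx : Q₂ + Cr * φ ≤ sn k x) (hQw : Q₂ + Cr * φ ≤ sn k w + (x' - w))
    (hPl : ∀ l ≤ k, P₂ + Cr * φ ≤ sn (k + 1) w + (1 - sn l w))
    (hQk : ∀ l < k, Q₂ + Cr * φ ≤ sn k w + (1 - sn l w)) (hrk : rk < 1) (hE : 0 ≤ E)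
    (hatt : AttG S ((range (k + 1)).image c) (c (k + 1)) w (sn (k + 1) w) rk E)
    (hPE : P₂ + E ≤ 1) (hraw : RawN S (univ.erase (c (k + 1))) (c (k + 1)) P₁ (P₂ - P₁) h δ)
    {ε : ℝ} (hε : 0 < ε) :
    ∃ κ : ℝ, 0 < κ ∧ ∃ e₀ : ℝ, 0 < e₀ ∧ ∀ K : ℕ, Bas S (fun J F A =>
      ∀ (V : Type) (z : F.Ω → V), Mx (fun J F => ptr F J) (vg w) κ F A z → ∀ u u₁ u₂ v₁ v₂,
      (qJets m c 0 k 0 (fun _ _ => b) (fun l _ => p l) (fun l _ => n l)).P K e₀ J F A u →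
      (qJet m ((range (k + 1)).image c) (c (k + 1)) 0 w pN P₁).P K e₀ J F A u₁ →
      (qJet m ((range (k + 1)).image c) (c (k + 1)) 0 w pN P₂).P K e₀ J F A u₂ →
      (qJet m ((range k).image c) (c k) 0 w pU Q₁).P K e₀ J F A v₁ →
      (qJet m ((range k).image c) (c k) 0 w pU Q₂).P K e₀ J F A v₂ →
      CH (Pool.Agent.H49.Ent.cond F.p A True) (fun ω => (u₂ ω, v₂ ω))
          (fun ω => ((u₁ ω, v₁ ω), (u ω, (z ω, F.W ω)))) ≤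
        (((1 - h) * (P₂ - P₁) + (Q₂ - Q₁)) * Real.log 2 + δ + 8 * Cr * φ + ε) * J) := by
  have hφ := L.φ0
  have hk0 : (0 : ℝ) ≤ k := Nat.cast_nonneg k
  have hkφ : 0 ≤ (k : ℝ) * φ := by positivity
  have hC1 : 100 * ((k : ℝ) + 2) * φ ≤ Cr * φ := by
    refine mul_le_mul_of_nonneg_right (le_trans ?_ hCr) hφ.le
    nlinarith
  have hC2 : 20 * (k : ℝ) ^ 2 * φ ≤ Cr * φ := by
    refine mul_le_mul_of_nonneg_right (le_trans ?_ hCr) hφ.le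
    nlinarith
  have hx'1 : x' ≤ 1 := (hxo.trans_lt L.o1).le
  have hxx' : x ≤ x' := by nlinarith
  have hxo' : x ≤ o := hxx'.trans hxo
  have hx1' : x ≤ 1 := hxx'.trans hx'1
  have hwx' : w ≤ x' := hwx.trans hxx'
  have hbx : b ≤ x := hbw.trans hwx
  have hbx' : b ≤ x' := hbw.trans hwx'
  have hw1 : w ≤ 1 := hwx'.trans hx'1
  have hb1 : b ≤ 1 := hbw.trans hw1
  have hl2 : 0 < Real.log 2 := Real.log_pos one_lt_two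
  have hl1 : Real.log 2 ≤ 1 := by
    have := Real.log_two_lt_d9
    linarith
  have hf : ∀ (J : ℕ) (F : Fam m J), ∃ φ : PtT F → PtT F, ∀ ω, ptr F J ω = φ (ptr F J ω) :=
    fun J F => ⟨fun y => y, fun _ => rfl⟩
  have hy := kn_W (c := c)
  obtain ⟨ns, q1, q2, q3, q4, q5⟩ := dgs L.lad hw hx hx' hbw hwx (by linarith) hxo hn tp
  obtain ⟨ρ, hρ⟩ : ∃ ρ : ℝ, ρ = ε / 32 := ⟨_, rfl⟩
  have hρ0 : 0 < ρ := by rw [hρ]; positivity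
  have hps : ∀ i < k, sn i b - φ ≤ sn i b := fun i _ => by linarith
  -- the slope-one places
  obtain ⟨k₁, hk₁, e₁, he₁, H₁⟩ := fux L.lad hx' hbx' hxo hp hn tp ρ hρ0
  obtain ⟨g₀, hg₀, G₀⟩ := (lad_few_heights L.lad hf hy hx hbx hxo' (p := fun i => sn i b) hps
    (fun i hi => ⟨by linarith [q2 i hi], q3 i hi⟩) q4).mx L.pos ρ hρ0
  -- the heights given the record at `x'`
  obtain ⟨a₁, ha₁, A₁⟩ := (h0 L hf hy (w := w) (x := x) (x' := x') (ox := x') (pr := pN) (N := P₁)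
    hw hx hx' hbw hwx (by linarith) hxo le_rfl hx'1 (by linarith) hpN (by linarith)
    (by linarith)).mx L.pos ρ hρ0
  obtain ⟨a₂, ha₂, A₂⟩ := (h0 L hf hy (w := w) (x := x) (x' := x') (ox := x') (pr := pN) (N := P₂)
    hw hx hx' hbw hwx (by linarith) hxo le_rfl hx'1 (by linarith) hpN (by linarith)
    (by linarith)).mx L.pos ρ hρ0
  obtain ⟨a₃, ha₃, A₃⟩ := (t_nu0 L.lad hf hy (w := w) (x := x) (x' := x') (ox := x') (pr := pU)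
    (N := Q₁) hw hx hx' hbw hwx (by linarith) hxo le_rfl hx'1 (by linarith) hpU (by linarith)
    (by linarith)).mx L.pos ρ hρ0
  obtain ⟨a₄, ha₄, A₄⟩ := (t_nu0 L.lad hf hy (w := w) (x := x) (x' := x') (ox := x') (pr := pU)
    (N := Q₂) hw hx hx' hbw hwx (by linarith) hxo le_rfl hx'1 (by linarith) hpU (by linarith)
    (by linarith)).mx L.pos ρ hρ0
  -- the heights given the record at `x` and the positions of the slope-one places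
  obtain ⟨g₁, hg₁, G₁⟩ := (hN L hf hy (w := w) (j := x) (oj := x) (pr := pN) (N := P₁)
    (p := fun i => sn i b) (n := ns) hw hx hbw hwx hxo' le_rfl hx1' hps hpN q1 q2 (by linarith)
    (fun i hi => by linarith [q5 i hi])).mx L.pos ρ hρ0
  obtain ⟨g₂, hg₂, G₂⟩ := (hN L hf hy (w := w) (j := x) (oj := x) (pr := pN) (N := P₂)
    (p := fun i => sn i b) (n := ns) hw hx hbw hwx hxo' le_rfl hx1' hps hpN q1 q2 (by linarith)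
    (fun i hi => by linarith [q5 i hi])).mx L.pos ρ hρ0
  obtain ⟨g₃, hg₃, G₃⟩ := (t_nup L.lad hf hy (w := w) (j := x) (oj := x) (pr := pU) (N := Q₁)
    (p := fun i => sn i b) (n := ns) hw hx hbw hwx hxo' le_rfl hx1' hps hpU q1 q2 (by linarith)
    (fun i hi => by linarith [q5 i hi])).mx L.pos ρ hρ0
  obtain ⟨g₄, hg₄, G₄⟩ := (t_nup L.lad hf hy (w := w) (j := x) (oj := x) (pr := pU) (N := Q₂)
    (p := fun i => sn i b) (n := ns) hw hx hbw hwx hxo' le_rfl hx1' hps hpU q1 q2 (by linarith)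
    (fun i hi => by linarith [q5 i hi])).mx L.pos ρ hρ0
  -- heights and digits of the positions
  have hcast : (((k + 1 : ℕ) : ℝ) + 1) = (k : ℝ) + 2 := by push_cast; ring
  have hC3 : 20 * (((k + 1 : ℕ) : ℝ) + 1) * φ ≤ Cr * φ := by
    rw [hcast]
    have : 0 ≤ ((k : ℝ) + 2) * φ := by positivity
    linarith
  have hP2l : ∀ l < k + 1, P₂ + 20 * (((k + 1 : ℕ) : ℝ) + 1) * φ ≤
      sn (k + 1) w + (1 - sn l w) := fun l hl => by linarith [hPl l (by omega)]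
  obtain ⟨k₂, hk₂, f₁, hf₁, F₁⟩ := exj (L.one hw) (i := k + 1) (w := w) (pr := pN) (N := P₁) le_rfl
    (Set.mem_singleton w) hrk hE hatt hpN hP0 (by linarith) (by linarith)
    (fun l hl => by linarith [hP2l l hl]) ρ hρ0
  obtain ⟨k₃, hk₃, f₂, hf₂, F₂⟩ := exj (L.one hw) (i := k + 1) (w := w) (pr := pN) (N := P₂) le_rfl
    (Set.mem_singleton w) hrk hE hatt hpN (hP0.trans hP) hPE (by linarith) hP2l ρ hρ0
  obtain ⟨k₄, hk₄, f₃, hf₃, F₃⟩ := exj_base (L.one hw) (i := k) (w := w) (pr := pU) (N := Q₁)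
    (Nat.lt_succ_self k) (Set.mem_singleton w) hpU hQ0 (hQ.trans hQ1) (by linarith)
    (fun l hl => by linarith [hQk l hl]) ρ hρ0
  obtain ⟨k₅, hk₅, f₄, hf₄, F₄⟩ := exj_base (L.one hw) (i := k) (w := w) (pr := pU) (N := Q₂)
    (Nat.lt_succ_self k) (Set.mem_singleton w) hpU (hQ0.trans hQ) hQ1 (by linarith)
    (fun l hl => by linarith [hQk l hl]) ρ hρ0
  obtain ⟨u₁', rd, -, hch⟩ := L.ch.ch x hx
  -- the constants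
  obtain ⟨es, hes, s0, s1, s2, s3⟩ := mn4 hg₁ hg₂ hg₃ hg₄
  obtain ⟨es', hes', s4, s5, -, -⟩ := mn4 hes hg₀ hes hg₀
  obtain ⟨Ks, Ms, HX⟩ := L.lad.exs L.bG (j := 0) (N := fun l _ => ns l) es' hes'
  obtain ⟨κ₀, hκ₀, hκ2, hκ3, hκ4, hκ5⟩ := mn4 hk₂ hk₃ hk₄ hk₅
  obtain ⟨κ, hκ, hκρ, hκκ, -, -⟩ := mn4 hρ0 hκ₀ hρ0 hκ₀
  obtain ⟨ea, hea, l1, l2, l3, l4⟩ := mn4 ha₁ ha₂ ha₃ ha₄
  obtain ⟨ef, hef, m1, m2, m3, m4⟩ := mn4 hf₁ hf₂ hf₃ hf₄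
  obtain ⟨e₀, he₀, n1, n2, n3, n4⟩ := mn4 he₁ hea hef hes
  obtain ⟨J₁, hJ₁⟩ := exists_nat_ge (2 / ρ)
  refine ⟨κ, hκ, e₀, he₀, fun K => Bas.mono J₁
    ((((H₁ K).and (G₀ Ks)).and (((A₁ K).and (A₂ K)).and ((A₃ K).and (A₄ K)))).and
    (((((G₁ (max K Ks)).and (G₂ (max K Ks))).and ((G₃ (max K Ks)).and (G₄ (max K Ks)))).and
    (((F₁ K).and (F₂ K)).and ((F₃ K).and (F₄ K)))).and
    ((((hch.ful ρ hρ0).and (hraw 0 le_rfl (by linarith))).and HX).and (pos_bas L.pos)))) ?_⟩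
  rintro J hJ F A ⟨⟨⟨H₁, G₀⟩, ⟨A₁, A₂⟩, A₃, A₄⟩, ⟨⟨⟨G₁, G₂⟩, G₃, G₄⟩, ⟨F₁, F₂⟩, F₃, F₄⟩,
    ⟨⟨hful, hraw⟩, us, hus, -⟩, hA⟩ V z hz u u₁ u₂ v₁ v₂ hu hu₁ hu₂ hv₁ hv₂
  have hJ0 : (0 : ℝ) ≤ J := Nat.cast_nonneg J
  have hJ1 : (J₁ : ℝ) ≤ J := by exact_mod_cast hJ
  have hJ2 : 2 ≤ ρ * J := by
    have := hJ₁.trans hJ1
    rw [div_le_iff₀ hρ0] at this
    linarith
  have hKl : K ≤ max K Ks := le_max_left _ _
  have hKr : Ks ≤ max K Ks := le_max_right _ _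
  obtain ⟨V', z', hz', hfin⟩ := mx_fin (fun J F => ptr F J) (vg x') F hA
  obtain ⟨Vx, zx, hzx, hfinx⟩ := mx_fin (fun J F => ptr F J) (vg x) F hA
  obtain ⟨Vb, zb, hzb, -⟩ := mx_fin (fun J F => ptr F J) (vg b) F hA
  -- the inputs
  have i1 := H₁ V' z' (hz' k₁ hk₁.le) u ((qJets m c 0 k 0 _ _ _).mono le_rfl n1 hu)
  have i2 := i1.2.1 Vb zb (hzb k₁ hk₁.le)
  have i3 := i1.2.2 Vb zb (hzb k₁ hk₁.le)
  have i1 := i1.1
  have i4 := G₀ Vb zb (hzb _ (half_pos hρ0).le) (fun ω => fun l : Fin k => F.X J ω (c l)) us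
    (fun ω _ => rfl) ((qJets m c 0 k 0 _ _ _).mono le_rfl s5 hus)
  have j1 := A₁ V' z' (hz' _ (half_pos hρ0).le) u₁
    ((qJet m _ _ _ _ _ _).mono le_rfl (n2.trans l1) hu₁)
  have j2 := A₂ V' z' (hz' _ (half_pos hρ0).le) u₂
    ((qJet m _ _ _ _ _ _).mono le_rfl (n2.trans l2) hu₂)
  have j3 := A₃ V' z' (hz' _ (half_pos hρ0).le) v₁
    ((qJet m _ _ _ _ _ _).mono le_rfl (n2.trans l3) hv₁)
  have j4 := A₄ V' z' (hz' _ (half_pos hρ0).le) v₂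
    ((qJet m _ _ _ _ _ _).mono le_rfl (n2.trans l4) hv₂)
  have y1 := G₁ Vx zx (hzx _ (half_pos hρ0).le) us u₁
    ((qJets m c 0 k 0 _ _ _).mono hKr (s4.trans s0) hus)
    ((qJet m _ _ _ _ _ _).mono hKl (n4.trans s0) hu₁)
  have y2 := G₂ Vx zx (hzx _ (half_pos hρ0).le) us u₂
    ((qJets m c 0 k 0 _ _ _).mono hKr (s4.trans s1) hus)
    ((qJet m _ _ _ _ _ _).mono hKl (n4.trans s1) hu₂)
  have y3 := G₃ Vx zx (hzx _ (half_pos hρ0).le) us v₁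
    ((qJets m c 0 k 0 _ _ _).mono hKr (s4.trans s2) hus)
    ((qJet m _ _ _ _ _ _).mono hKl (n4.trans s2) hv₁)
  have y4 := G₄ Vx zx (hzx _ (half_pos hρ0).le) us v₂
    ((qJets m c 0 k 0 _ _ _).mono hKr (s4.trans s3) hus)
    ((qJet m _ _ _ _ _ _).mono hKl (n4.trans s3) hv₂)
  have x1 := (F₁ V z (Mx.le' (hκκ.trans hκ2) hz) u₁
    ((qJet m _ _ _ _ _ _).mono le_rfl (n3.trans m1) hu₁)).2
  have x2 := (F₂ V z (Mx.le' (hκκ.trans hκ3) hz) u₂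
    ((qJet m _ _ _ _ _ _).mono le_rfl (n3.trans m2) hu₂)).1
  have x3 := (F₃ V z (Mx.le' (hκκ.trans hκ4) hz) v₁
    ((qJet m _ _ _ _ _ _).mono le_rfl (n3.trans m3) hv₁)).2
  have x4 := F₄ V z (Mx.le' (hκκ.trans hκ5) hz) v₂
    ((qJet m _ _ _ _ _ _).mono le_rfl (n3.trans m4) hv₂)
  obtain ⟨⟨χ₁, hχ₁⟩, χ₂, hχ₂⟩ := (hzx 0 le_rfl).1
  have w1 := hful Vx χ₁ χ₂ (fun ω hω => (hχ₁ ω hω).symm.trans (hχ₂ ω hω)) k (Nat.zero_le _)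
    (Nat.lt_succ_self k)
  obtain ⟨q', hq'⟩ : ∃ q' : F.Ω → ℝ, q' = Pool.Agent.H49.Ent.cond F.p A True := ⟨_, rfl⟩
  have hq'l : IsLaw q' := by
    rw [hq']
    exact isLaw_cond F.isLaw hA
  have hq0 := hq'l.nonneg
  have hq'A : ∀ ω, 0 < q' ω → A ω := fun ω hω => by
    rw [hq'] at hω
    exact of_cond_pos hω
  have hzb' : CH q' zb z ≤ ρ * J := by
    rw [hq']
    refine (hz.2 _ _ ((hzb 0 le_rfl).1.mono ⟨fun x => x, fun _ _ => rfl⟩ ?_)).trans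
      (mul_le_mul_of_nonneg_right hκρ hJ0)
    obtain ⟨ψ, hψ⟩ := vg_mono hbw hw1 J F
    exact ⟨ψ, fun ω _ => hψ ω⟩
  have dz' : Det q' z' z := fun ω ω' hω hω' e => by
    refine hfin V z (hz.1.mono ⟨fun x => x, fun _ _ => rfl⟩ ?_) ω ω' (hq'A ω hω) (hq'A ω' hω') e
    obtain ⟨ψ, hψ⟩ := vg_mono hwx' hx'1 J F
    exact ⟨ψ, fun ω _ => hψ ω⟩
  have dzx : Det q' zx z := fun ω ω' hω hω' e => by
    refine hfinx V z (hz.1.mono ⟨fun x => x, fun _ _ => rfl⟩ ?_) ω ω' (hq'A ω hω) (hq'A ω' hω') e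
    obtain ⟨ψ, hψ⟩ := vg_mono hwx hx1' J F
    exact ⟨ψ, fun ω _ => hψ ω⟩
  have dzb : Det q' zx zb := fun ω ω' hω hω' e => by
    refine hfinx Vb zb ((hzb 0 le_rfl).1.mono ⟨fun x => x, fun _ _ => rfl⟩ ?_) ω ω' (hq'A ω hω)
      (hq'A ω' hω') e
    obtain ⟨ψ, hψ⟩ := vg_mono hbx hx1' J F
    exact ⟨ψ, fun ω _ => hψ ω⟩
  rw [← hq'] at i1 i2 i3 i4 j1 j2 j3 j4 y1 y2 y3 y4 x1 x2 x3 x4 w1 hraw ⊢
  obtain ⟨X0, hX0⟩ : ∃ X0 : F.Ω → Fin k → ℤ, X0 = fun ω (l : Fin k) => F.X J ω (c l) := ⟨_, rfl⟩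
  obtain ⟨Xk, hXk⟩ : ∃ Xk : F.Ω → ℤ, Xk = fun ω => F.X J ω (c k) := ⟨_, rfl⟩
  rw [← hX0] at i1 i2
  have i3 : CH q' u (fun ω => (X0 ω, (zb ω, F.W ω))) ≤ ρ * J := by
    rw [hX0]
    exact i3
  have i4 : CH q' us (fun ω => (X0 ω, (zb ω, F.W ω))) ≤ ρ * J := by
    rw [hX0]
    exact i4
  have hc0 : ∀ ω ω', X0 ω = X0 ω' → ceI ((range k).image c) (fun _ => J) (F.x ω) =
      ceI ((range k).image c) (fun _ => J) (F.x ω') := by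
    intro ω ω' e
    refine ceI_tup le_rfl fun l hl => ?_
    rw [hX0] at e
    exact congrFun e ⟨l, hl⟩
  have hc1 : ∀ ω ω', X0 ω = X0 ω' → Xk ω = Xk ω' →
      ceI ((range (k + 1)).image c) (fun _ => J) (F.x ω) =
      ceI ((range (k + 1)).image c) (fun _ => J) (F.x ω') := by
    intro ω ω' e e'
    refine ceI_tup le_rfl fun l hl => ?_
    rcases Nat.lt_succ_iff_lt_or_eq.1 hl with h1 | h1
    · rw [hX0] at e
      exact congrFun e ⟨l, h1⟩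
    · rw [hXk] at e'
      rw [h1]
      exact e'
  have hQf : ⌊Q₁ * J⌋₊ ≤ ⌊Q₂ * J⌋₊ := Nat.floor_le_floor (mul_le_mul_of_nonneg_right hQ hJ0)
  have hQJ : ⌊Q₂ * J⌋₊ ≤ J := floor_le hQ1 J
  have key := rowp_ent (q := q') hq0 (u₁ := u₁) (u₂ := u₂) (v₁ := v₁) (v₂ := v₂) (u := u)
    (us := us) (X0 := X0) (Xk := Xk) (D₁ := fun ω => F.X ⌊Q₁ * J⌋₊ ω (c k))
    (D₂ := fun ω => F.X ⌊Q₂ * J⌋₊ ω (c k)) (E₁ := fun ω => F.X ⌊P₁ * J⌋₊ ω (c (k + 1)))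
    (E₂ := fun ω => F.X ⌊P₂ * J⌋₊ ω (c (k + 1))) (z := z) (z' := z') (zx := zx) (zb := zb)
    (W := F.W) (a := ρ * J) (dQ := ((Q₂ - Q₁) * J + 1) * Real.log 2)
    (dJ := ((1 - Q₂) * J + 1) * Real.log 2)
    (dP := ((1 - h) * (P₂ - P₁) * Real.log 2 + δ) * J)
    (f := (1 - sn k x - ρ) * Real.log 2 * J) dz' dzx dzb hzb' i1 i2 i3 j2 j1 j4 j3 ?_ ?_ ?_ ?_ ?_
    ?_ ?_ ?_ i4 y2 y1 y4 y3 ?_
  · refine key.trans ?_
    have e1 : 20 * (k : ℝ) ^ 2 * φ * Real.log 2 ≤ Cr * φ := by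
      have : 20 * (k : ℝ) ^ 2 * φ * Real.log 2 ≤ 20 * (k : ℝ) ^ 2 * φ * 1 :=
        mul_le_mul_of_nonneg_left hl1 (by positivity)
      linarith
    have e2 := mul_le_mul_of_nonneg_right e1 hJ0
    have e3 : (sn k x - Q₂) * Real.log 2 ≤ 2 * Cr * φ := by
      have h3 : sn k x - Q₂ ≤ 2 * Cr * φ := by linarith
      have h4 : 0 ≤ 2 * Cr * φ := by
        have : 0 ≤ Cr * φ := by
          have : 0 ≤ ((k : ℝ) + 2) * φ := by positivity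
          linarith
        linarith
      calc (sn k x - Q₂) * Real.log 2 ≤ 2 * Cr * φ * Real.log 2 :=
            mul_le_mul_of_nonneg_right h3 hl2.le
        _ ≤ 2 * Cr * φ * 1 := mul_le_mul_of_nonneg_left hl1 h4
        _ = _ := mul_one _
    have e4 := mul_le_mul_of_nonneg_right e3 hJ0
    have e5 : ρ * Real.log 2 * J ≤ ρ * J := by
      have : ρ * Real.log 2 ≤ ρ * 1 := mul_le_mul_of_nonneg_left hl1 hρ0.le
      rw [mul_one] at this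
      exact mul_le_mul_of_nonneg_right this hJ0
    have e6 : 0 ≤ Cr * φ * J := by
      have : 0 ≤ Cr * φ := by
        have : 0 ≤ ((k : ℝ) + 2) * φ := by positivity
        linarith
      positivity
    have e7 : (((1 - h) * (P₂ - P₁) + (Q₂ - Q₁)) * Real.log 2 + δ + 8 * Cr * φ + ε) * J =
        ((1 - h) * (P₂ - P₁) * Real.log 2 + δ) * J + (Q₂ - Q₁) * Real.log 2 * J +
          8 * (Cr * φ * J) + 32 * (ρ * J) := by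
      rw [hρ]
      ring
    rw [e7]
    have hρJ : 0 ≤ ρ * J := by positivity
    nlinarith only [e2, e4, e5, e6, hρJ, hJ2, hl1, hl2]
  · refine le_trans (CH_mono_cond hq0 fun ω ω' _ _ e => ?_) x3
    simp only [Prod.mk.injEq] at e ⊢
    exact ⟨e.1, hc0 ω ω' e.2.1, e.2.2.1, e.2.2.2⟩
  · refine (X_more hq'l hQf (c k) X0).trans (mul_le_mul_of_nonneg_right ?_ hl2.le)
    have h1 := Nat.floor_le (show 0 ≤ Q₂ * J from mul_nonneg (hQ0.trans hQ) hJ0)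
    have h2 := (Nat.lt_floor_add_one (Q₁ * J)).le
    linarith
  · refine le_trans (CH_mono_cond hq0 fun ω ω' _ _ e => ?_) x4.1
    simp only [Prod.mk.injEq] at e ⊢
    exact ⟨e.1, hc0 ω ω' e.2.1, e.2.2.1, e.2.2.2⟩
  · refine le_trans (CH_mono_cond hq0 fun ω ω' _ _ e => ?_) x4.2
    simp only [Prod.mk.injEq] at e ⊢
    exact ⟨e.1, hc0 ω ω' e.2.1, e.2.2.1, e.2.2.2⟩
  · rw [hXk]
    refine (X_more hq'l hQJ (c k) X0).trans (mul_le_mul_of_nonneg_right ?_ hl2.le)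
    have h2 := (Nat.lt_floor_add_one (Q₂ * J)).le
    linarith
  · refine le_trans (CH_mono_cond hq0 fun ω ω' _ _ e => ?_) x1
    simp only [Prod.mk.injEq] at e ⊢
    exact ⟨e.1, hc1 ω ω' e.2.1.1 e.2.1.2, e.2.2.1, e.2.2.2⟩
  · have e1 : P₁ + (P₂ - P₁) = P₂ := by ring
    have e2 : P₂ - P₁ - 0 = P₂ - P₁ := by ring
    rw [e1, e2, add_zero] at hraw
    refine le_trans (CH_mono_cond hq0 fun ω ω' _ _ e => ?_) hraw
    simp only [Prod.mk.injEq] at e ⊢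
    rw [← hI]
    exact ⟨e.1, hc1 ω ω' e.2.1.1 e.2.1.2, e.2.2⟩
  · refine le_trans (CH_mono_cond hq0 fun ω ω' _ _ e => ?_) x2
    simp only [Prod.mk.injEq] at e ⊢
    exact ⟨e.1, hc1 ω ω' e.2.1.1 e.2.1.2, e.2.2.1, e.2.2.2⟩
  · refine w1.trans ?_
    rw [hXk]
    refine CH_mono_cond hq0 fun ω ω' hω hω' e => ?_
    rw [hX0]
    simp only [Prod.mk.injEq] at e ⊢
    refine ⟨e.1, ?_, e.2.2⟩
    rw [hχ₂ ω (hq'A ω hω), hχ₂ ω' (hq'A ω' hω')]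
    exact e.2.1

/-- **(RWP)** The rows of the pair on parts of the event, from the heights of the last place. -/
theorem rwp (h0 : Nu0pStmt) (hN : NuppStmt) : RwpStmt := by
  intro k
  have hk0 : (0 : ℝ) ≤ k := Nat.cast_nonneg k
  refine ⟨100 * ((k : ℝ) + 2) ^ 2, by nlinarith, ?_⟩
  intro m S c sn G b o φ L hI w w₁ x x' η p n pN pU P₁ P₂ Q₁ Q₂ h δ E₁ hw hx hx' hbw hwx hxx hxo
    hx1 hp hpN hpU hn tp hP0 hP hP1 hQ0 hQ hQ1 hPx hPw hQl hQx hQw hPl hQk hatt hraw hw₁ hw₁1 hη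
    π₀ hπ₀ ε hε
  obtain ⟨rk, hrk, hE, hatt, hPE⟩ := hatt
  obtain ⟨k₁, hk₁, e₀, he₀, H⟩ := rowp h0 hN L hI le_rfl hw hx hx' hbw hwx hxx hxo hx1 hp hpN hpU
    hn tp hP0 hP hQ0 hQ hQ1 hPx hPw hQl hQx hQw hPl hQk hrk hE hatt hPE hraw (half_pos hε)
  obtain ⟨κ, hκ, H'⟩ := hη.max L.pos (ε / 2) (half_pos hε)
  obtain ⟨J₁, hJ₁⟩ := exists_nat_ge (-Real.log π₀ / κ)
  refine ⟨ε / 2 / 2, by positivity, e₀, he₀, fun K => Bas.mono J₁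
    (((Pool.GRW.bas_part (H K) (inv_pos.2 hπ₀)).and H').and (pos_bas L.pos)) ?_⟩
  rintro J hJ F A ⟨⟨H, H'⟩, hA⟩ V z hz hc u u₁ u₂ v₁ v₂ hu hu₁ hu₂ hv₁ hv₂ B hB hPB
  have hJ0 : (0 : ℝ) ≤ J := Nat.cast_nonneg J
  have hJ1 : (J₁ : ℝ) ≤ J := by exact_mod_cast hJ
  have hPB' : Pe F.p A ≤ π₀⁻¹ * Pe F.p B := by
    rw [inv_mul_eq_div, le_div_iff₀ hπ₀, mul_comm]
    exact hPB
  have hB0 : 0 < Pe F.p B := lt_of_lt_of_le (mul_pos hπ₀ hA) hPB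
  have hexp : Real.exp (-(κ * J)) * Pe F.p A ≤ Pe F.p B := by
    refine le_trans (mul_le_mul_of_nonneg_right ?_ hA.le) hPB
    rw [← Real.exp_log hπ₀]
    refine Real.exp_le_exp.2 ?_
    have := hJ₁.trans hJ1
    rw [div_le_iff₀ hκ] at this
    linarith
  obtain ⟨-, -, hmax⟩ := H' V z hz hc B hB hexp
  obtain ⟨V', z', hz', -⟩ := mx_fin (fun J F => ptr F J) (vg w) F hB0
  have h1 := H B hB hPB' V' z' (hz' k₁ hk₁.le) u u₁ u₂ v₁ v₂ ((qJets m c 0 k 0 _ _ _).sub hB hu)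
    ((qJet m _ _ _ _ _ _).sub hB hu₁) ((qJet m _ _ _ _ _ _).sub hB hu₂)
    ((qJet m _ _ _ _ _ _).sub hB hv₁) ((qJet m _ _ _ _ _ _).sub hB hv₂)
  have h2 := (hmax V' z' ((hz' 0 le_rfl).1.mono ⟨fun x => x, fun _ _ => rfl⟩ (by
    obtain ⟨ψ, hψ⟩ := vg_mono hw₁ hw₁1 J F
    exact ⟨ψ, fun ω _ => hψ ω⟩))).2
  have hq0 := (isLaw_cond F.isLaw hB0).nonneg
  have h3 := CH_le_add hq0 (fun ω => (u₂ ω, v₂ ω)) z'
    (fun ω => ((u₁ ω, v₁ ω), (u ω, (z ω, F.W ω))))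
  have h4 : CH (Pool.Agent.H49.Ent.cond F.p B True) z'
      (fun ω => ((u₁ ω, v₁ ω), (u ω, (z ω, F.W ω)))) ≤
      CH (Pool.Agent.H49.Ent.cond F.p B True) z' z := CH_mono_cond hq0 fun ω ω' _ _ e => by
    simp only [Prod.mk.injEq] at e
    exact e.2.2.1
  have h5 : CH (Pool.Agent.H49.Ent.cond F.p B True) (fun ω => (u₂ ω, v₂ ω))
      (fun ω => (z' ω, ((u₁ ω, v₁ ω), (u ω, (z ω, F.W ω))))) ≤
      CH (Pool.Agent.H49.Ent.cond F.p B True) (fun ω => (u₂ ω, v₂ ω))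
        (fun ω => ((u₁ ω, v₁ ω), (u ω, (z' ω, F.W ω)))) :=
    CH_mono_cond hq0 fun ω ω' _ _ e => by
      simp only [Prod.mk.injEq] at e ⊢
      exact ⟨e.2.1, e.2.2.1, e.1, e.2.2.2.2⟩
  nlinarith

end Pool.V0Q
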