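import Pool.Agent.H44.V0P.Par
import Pool.Agent.H44.V0P.Fiu
import Pool.Agent.H50.V0P.Rwp

/-!
# Rows and fullness of a pair on parts of an event

`rowFam`: the rows of the pair, all blocks from the natural digits; `fulFam`: the fullness of the
digits of the place `k` in the blocks.
-/

set_option autoImplicit false

namespace Pool.V0Q

open Finset Real MvPolynomial
open Pool.Agent.H49.Ent Pool.Agent.H32.Dense
open Pool.STK hiding pr2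
open Pool.KA Pool.KSAT Pool.K2S Pool.PB Pool.S6C
open Pool.GEN Pool.CHT Pool.CHX Pool.ISO Pool.LA91 Pool.AVG71 Pool.AVG5 Pool.D2F2 Pool.AVG57
open Pool.RCD Pool.AVG96 Pool.OWN68 Pool.V0F
open Pool.AJW (CfB)

/-- **The rows** of the pair on parts of the event. -/
theorem rowFam (hN : NuppStmt) (h0 : Nu0pStmt) : RowFamStmt := by
  intro k
  obtain ⟨Cr, hCr, H0⟩ := rwp h0 hN k
  refine ⟨Cr, hCr, ?_⟩
  intro m S c D sn G b o φ L hI s w u y ξ T Λ C κ e lam j x x' xr xq w₁ vq oq xa N hC h hraw hatt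
    hη π₀ hπ ε hε Ec
  obtain ⟨rk, Ee, hrk, hEe, hat, hEs⟩ := hatt
  obtain ⟨η, hη⟩ := hη
  obtain ⟨n₀, hn₀⟩ := exists_nat_gt (1 / κ)
  obtain ⟨b1, b2, b3, b4, b5, b6, b7, b8, b9, b10, b11, b12, b13, b14, b15, b16, b17⟩ := N.wb
  obtain ⟨c1, c2, c3, c4, -⟩ := N.nb_c
  obtain ⟨k1, k2, k3, k4, -⟩ := N.k9_c
  have hφ0 := N.φ0
  have hκ := N.κ0
  have hc0 : 0 ≤ Cr * φ := mul_nonneg (by linarith) hφ0.le
  have hc1 : Cr * φ ≤ C * φ := mul_le_mul_of_nonneg_right hC hφ0.le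
  -- one block
  have hone : ∀ a < n₀, Bas S (fun J F A =>
      ∀ Hb H : LnT F → ℕ → MvPolynomial (Option (Fin m)) ℝ,
      LDP F c k 1 D b w φ Ec sn A Hb H → (a : ℝ) * κ ≤ 1 →
      ∀ B : F.Ω → Prop, Sub B A → π₀ * Pe F.p A ≤ Pe F.p B →
      CH (Pool.Agent.H49.Ent.cond F.p B True)
        (fun ω => (th0 F c (k + 1) ⌊w * J⌋₊ H
            (sn (k + 1) w + u + 500 * y + a * κ * (ξ * u)) ω,
          th0 F c k ⌊w * J⌋₊ H (sn k (xa a) - Cr * φ) ω))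
        (fun ω => ((th0 F c (k + 1) ⌊w * J⌋₊ H (sn (k + 1) w + u + 500 * y - 2 * φ) ω,
            th0 F c k ⌊w * J⌋₊ H (sn k w + u + 500 * y - 2 * φ) ω),
          (jh F c k ⌊w * J⌋₊ H (nfP k sn w xr φ) ω, (cR F A w₁ ω, F.W ω)))) ≤
        (((1 - h) * (a * κ * (ξ * u) + 2 * φ) + (a * κ * (ξ * u) + 22 * y)) * Real.log 2 + φ +
          8 * Cr * φ + ε) * J) := by
    intro a _
    by_cases ha : (a : ℝ) * κ ≤ 1
    swap
    · exact Bas.mono 0 (pos_bas L.pos) fun J _ F A _ Hb H _ h => absurd h ha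
    obtain ⟨r1, r2, r3, r4, r5⟩ := N.row_c ha hc0 hc1
    obtain ⟨p1, p2, p3, p4, p5, p6, p7, p8, p9, p10, p11, p12, p13, p14, p15, p16⟩ :=
      r5 (k + 1) (by omega) le_rfl
    obtain ⟨q1, q2, q3, q4, q5, q6, q7, q8, q9, q10, q11, q12, q13, q14, q15, q16⟩ :=
      r5 k le_rfl (by omega)
    obtain ⟨P₁, hP₁⟩ : ∃ P₁ : ℝ, P₁ = sn (k + 1) w + u + 500 * y - 2 * φ := ⟨_, rfl⟩
    obtain ⟨P₂, hP₂⟩ : ∃ P₂ : ℝ, P₂ = sn (k + 1) w + u + 500 * y + a * κ * (ξ * u) := ⟨_, rfl⟩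
    obtain ⟨Q₁, hQ₁⟩ : ∃ Q₁ : ℝ, Q₁ = sn k w + u + 500 * y - 2 * φ := ⟨_, rfl⟩
    obtain ⟨Q₂, hQ₂⟩ : ∃ Q₂ : ℝ, Q₂ = sn k (xa a) - Cr * φ := ⟨_, rfl⟩
    have hd : P₂ - P₁ = a * κ * (ξ * u) + 2 * φ := by
      rw [hP₂, hP₁]
      ring
    rw [← hP₁, ← hP₂, ← hQ₁, ← hQ₂]
    rw [← hP₁] at p1 p2 p13
    rw [← hP₂] at p2 p3 p6 p7 p11 p14
    rw [← hQ₁] at q1 q4 q15
    rw [← hQ₂] at q4 q5 q8 q9 q10 q12 q15
    have hraw' := hraw P₁ P₂ p13 p14 p2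
    have hat' : ∃ rk : ℝ, rk < 1 ∧ 0 ≤ Ee ∧
        AttG S ((range (k + 1)).image c) (c (k + 1)) w (sn (k + 1) w) rk Ee ∧ P₂ + Ee ≤ 1 :=
      ⟨rk, hrk, hEe, hat, by linarith [(abs_le.1 p14).2]⟩
    obtain ⟨k', hk', e₀, he₀, HR⟩ := H0 L hI (w := w) (w₁ := w₁) (x := xa a) (x' := xr)
      (p := fun l => sn l b - φ) (n := nfP k sn w xr φ) (pN := sn (k + 1) w - φ)
      (pU := sn k w - φ) (P₁ := P₁) (P₂ := P₂) (Q₁ := Q₁) (Q₂ := Q₂) (h := h) (δ := φ)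
      (E₁ := Ee) N.wG (N.aG a ha) N.rG b1 r1 r2 r3 r4 (fun i _ => le_rfl) le_rfl le_rfl c1 c2
      p1 p2 p3 q1 q4 q5 p6 p7 (by linarith) q9 q10 (fun l hl => p11 l (by omega))
      (fun l hl => q12 l (by omega)) hat' hraw' N.hw1 k4.le hη π₀ hπ ε hε
    obtain ⟨M₁, J₁, hM₁⟩ := ld_jh m D k (nfP k sn w xr φ) (b := b) (E := Ec) k1 (by linarith)
    obtain ⟨M₂, J₂, hM₂⟩ := ldp_th m D k 1 (k + 1) P₁ (w := w) (E := Ec) (by omega) le_rfl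
      (by linarith) k3.le
    obtain ⟨M₃, J₃, hM₃⟩ := ldp_th m D k 1 (k + 1) P₂ (w := w) (E := Ec) (by omega) le_rfl
      (by linarith) k3.le
    obtain ⟨M₄, J₄, hM₄⟩ := ldp_th m D k 1 k Q₁ (w := w) (E := Ec) le_rfl (by omega)
      (by linarith) k3.le
    obtain ⟨M₅, J₅, hM₅⟩ := ldp_th m D k 1 k Q₂ (w := w) (E := Ec) le_rfl (by omega)
      (by linarith) k3.le
    obtain ⟨M, m1, m2, m3, m4, m5⟩ : ∃ M : ℕ, M₁ ≤ M ∧ M₂ ≤ M ∧ M₃ ≤ M ∧ M₄ ≤ M ∧ M₅ ≤ M :=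
      ⟨M₁ + M₂ + M₃ + M₄ + M₅, by omega, by omega, by omega, by omega, by omega⟩
    refine Bas.mono (J₁ + J₂ + J₃ + J₄ + J₅) ((HR M).and (hη.at' k' hk')) ?_
    rintro J hJ F A ⟨H1, hq⟩ Hb H LDh _ B hB hPB
    have hcR : Cl2 (ptr F J) (vg w₁ J F) A (cR F A w₁) := by
      refine ⟨?_, ?_⟩
      · choose φ hφ using fun D : {D : F.Ω → Prop // Cl2 (ptr F J) (vg w₁ J F) A D} => D.2.1
        exact ⟨fun x D => φ D x, fun ω hω => funext fun D => hφ D ω hω⟩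
      · choose φ hφ using fun D : {D : F.Ω → Prop // Cl2 (ptr F J) (vg w₁ J F) A D} => D.2.2
        exact ⟨fun x D => φ D x, fun ω hω => funext fun D => hφ D ω hω⟩
    have H2 := H1 _ (cR F A w₁) hcR (fun v => cR_cell hq v) (jh F c k ⌊w * J⌋₊ H (nfP k sn w xr φ))
      (th0 F c (k + 1) ⌊w * J⌋₊ H P₁) (th0 F c (k + 1) ⌊w * J⌋₊ H P₂)
      (th0 F c k ⌊w * J⌋₊ H Q₁) (th0 F c k ⌊w * J⌋₊ H Q₂)
      (hM₁ M m1 J (by omega) LDh.toLD e₀ he₀.le)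
      (hM₂ M m2 J (by omega) LDh e₀ he₀.le) (hM₃ M m3 J (by omega) LDh e₀ he₀.le)
      (hM₄ M m4 J (by omega) LDh e₀ he₀.le) (hM₅ M m5 J (by omega) LDh e₀ he₀.le) B hB hPB
    rw [hd] at H2
    refine H2.trans (mul_le_mul_of_nonneg_right ?_ (Nat.cast_nonneg J))
    have := mul_le_mul_of_nonneg_right (add_le_add_right q15 ((1 - h) * (a * κ * (ξ * u) + 2 * φ)))
      (Real.log_pos one_lt_two).le
    linarith
  refine Bas.mono 0 (Bas.all n₀ hone) ?_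
  rintro J - F A H1 Hb H LDh a ha B hB hPB
  have han : a < n₀ := by
    have h2 : (a : ℝ) ≤ 1 / κ := by
      rw [le_div_iff₀ hκ]
      exact ha
    exact_mod_cast h2.trans_lt hn₀
  exact H1 a han Hb H LDh ha B hB hPB

/-- **The fullness** of the digits of the place `k` on parts of the event. -/
theorem fulFam (hN : NuppStmt) : FulFamStmt := by
  intro k
  obtain ⟨Cf, hCf, H0⟩ := fiu hN k
  refine ⟨Cf, hCf, ?_⟩
  intro m S c D sn G b o φ L hI s w u y ξ T Λ C κ e lam j x x' xr xq w₁ vq oq xa N hC π₀ hπ ε hε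
    Ec
  obtain ⟨n₀, hn₀⟩ := exists_nat_gt (1 / κ)
  obtain ⟨b1, b2, b3, b4, b5, b6, b7, b8, b9, b10, b11, b12, b13, b14, b15, b16, b17⟩ := N.wb
  obtain ⟨c1, c2, c3, c4, -⟩ := N.nb_c
  obtain ⟨k1, k2, k3, k4, -⟩ := N.k9_c
  have hφ0 := N.φ0
  have hκ := N.κ0
  have hc0 : 0 ≤ Cf * φ := mul_nonneg (by linarith) hφ0.le
  have hc1 : Cf * φ ≤ C * φ := mul_le_mul_of_nonneg_right hC hφ0.le
  -- one block
  have hone : ∀ i < n₀, ∀ i' < n₀, Bas S (fun J F A =>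
      ∀ Hb H : LnT F → ℕ → MvPolynomial (Option (Fin m)) ℝ,
      LDP F c k 1 D b w φ Ec sn A Hb H → i < i' → (i' : ℝ) * κ ≤ 1 →
      ∀ B : F.Ω → Prop, Sub B A → π₀ * Pe F.p A ≤ Pe F.p B →
      ∀ (V : Type) (z : F.Ω → V), Cl2 (ptr F J) (vg (w + 1000 * φ) J F) B z →
      (((i' - i) * κ * (ξ * u) - 30 * y) * Real.log 2 - 4 * Cf * φ - ε) * J ≤
        CH (Pool.Agent.H49.Ent.cond F.p B True)
          (th0 F c k ⌊w * J⌋₊ H (sn k w + u + 500 * y + i' * κ * (ξ * u) - 2 * φ))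
          (fun ω => ((th0 F c (k + 1) ⌊w * J⌋₊ H
              (sn (k + 1) w + u + 500 * y + i * κ * (ξ * u)) ω,
            th0 F c k ⌊w * J⌋₊ H (sn k (xa i) - Cf * φ) ω),
            (jh F c k ⌊w * J⌋₊ H (nfP k sn w xr φ) ω, (z ω, F.W ω))))) := by
    intro i _ i' _
    by_cases hi : i < i'
    swap
    · exact Bas.mono 0 (pos_bas L.pos) fun J _ F A _ Hb H _ h => absurd h hi
    by_cases ha : (i' : ℝ) * κ ≤ 1
    swap
    · exact Bas.mono 0 (pos_bas L.pos) fun J _ F A _ Hb H _ _ h => absurd h ha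
    have ha' : (i : ℝ) * κ ≤ 1 := by
      have h1 : (i : ℝ) ≤ i' := by exact_mod_cast hi.le
      exact (mul_le_mul_of_nonneg_right h1 hκ.le).trans ha
    obtain ⟨r1, r2, r3, r4, r5⟩ := N.fiu_c hi ha hc0 hc1
    obtain ⟨p1, p2, p3, p4, p5, p6, p7, p8, p9, p10, p11, p12⟩ := r5 (k + 1) (by omega) le_rfl
    obtain ⟨q1, q2, q3, q4, q5, q6, q7, q8, q9, q10, q11, q12⟩ := r5 k le_rfl (by omega)
    obtain ⟨M₁, hM₁⟩ : ∃ M₁ : ℝ, M₁ = sn (k + 1) w + u + 500 * y + i * κ * (ξ * u) := ⟨_, rfl⟩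
    obtain ⟨U₁, hU₁⟩ : ∃ U₁ : ℝ, U₁ = sn k (xa i) - Cf * φ := ⟨_, rfl⟩
    obtain ⟨U₂, hU₂⟩ : ∃ U₂ : ℝ, U₂ = sn k w + u + 500 * y + i' * κ * (ξ * u) - 2 * φ := ⟨_, rfl⟩
    rw [← hM₁, ← hU₁, ← hU₂]
    rw [← hM₁] at p4 p7
    rw [← hU₁] at q1 q2 q5 q6 q8 q12
    rw [← hU₂] at q2 q3 q9 q10 q12
    obtain ⟨e₀, he₀, HR⟩ := H0 L (w := w) (v := xa i)
      (p := fun l => sn l b - φ) (n := nfP k sn w xr φ) (pN := sn (k + 1) w - φ)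
      (pU := sn k w - φ) (M₁ := M₁) (U₁ := U₁) (U₂ := U₂)
      N.wG (N.aG i ha') b1 (by linarith) r2 r3 (fun i _ => le_rfl) le_rfl le_rfl
      (fun l hl => (c1 l hl).2) c2 c3 q1 q2 q3 p4 q5 (by linarith) r4 p7 q8 q9
      (fun l hl => q10 l (by omega)) π₀ hπ ε hε
    obtain ⟨N₁, J₁, hN₁⟩ := ld_jh m D k (nfP k sn w xr φ) (b := b) (E := Ec) k1 (by linarith)
    obtain ⟨N₂, J₂, hN₂⟩ := ldp_th m D k 1 (k + 1) M₁ (w := w) (E := Ec) (by omega) le_rfl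
      (by linarith) k3.le
    obtain ⟨N₃, J₃, hN₃⟩ := ldp_th m D k 1 k U₁ (w := w) (E := Ec) le_rfl (by omega)
      (by linarith) k3.le
    obtain ⟨N₄, J₄, hN₄⟩ := ldp_th m D k 1 k U₂ (w := w) (E := Ec) le_rfl (by omega)
      (by linarith) k3.le
    obtain ⟨M, m1, m2, m3, m4⟩ : ∃ M : ℕ, N₁ ≤ M ∧ N₂ ≤ M ∧ N₃ ≤ M ∧ N₄ ≤ M :=
      ⟨N₁ + N₂ + N₃ + N₄, by omega, by omega, by omega, by omega⟩
    refine Bas.mono (J₁ + J₂ + J₃ + J₄) (HR M) ?_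
    rintro J hJ F A H1 Hb H LDh _ _ B hB hPB V z hz
    have hz' : Cl2 (ptr F J) (vg (xa i) J F) B z := hz.mono ⟨fun x => x, fun _ _ => rfl⟩ (by
      obtain ⟨ψ, hψ⟩ := vg_mono r1 (show xa i ≤ 1 by linarith) J F
      exact ⟨ψ, fun ω _ => hψ ω⟩)
    have H2 := H1 (jh F c k ⌊w * J⌋₊ H (nfP k sn w xr φ))
      (th0 F c (k + 1) ⌊w * J⌋₊ H M₁) (th0 F c k ⌊w * J⌋₊ H U₁) (th0 F c k ⌊w * J⌋₊ H U₂)
      (hN₁ M m1 J (by omega) LDh.toLD e₀ he₀.le)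
      (hN₂ M m2 J (by omega) LDh e₀ he₀.le) (hN₃ M m3 J (by omega) LDh e₀ he₀.le)
      (hN₄ M m4 J (by omega) LDh e₀ he₀.le) B hB hPB V z hz'
    refine le_trans (mul_le_mul_of_nonneg_right ?_ (Nat.cast_nonneg J)) H2
    have := mul_le_mul_of_nonneg_right q12 (Real.log_pos one_lt_two).le
    linarith
  refine Bas.mono 0 (Bas.all n₀ fun i hi => Bas.all n₀ fun i' hi' => hone i hi i' hi') ?_
  rintro J - F A H1 Hb H LDh i i' hi ha B hB hPB V z hz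
  have hin : i' < n₀ := by
    have h2 : (i' : ℝ) ≤ 1 / κ := by
      rw [le_div_iff₀ hκ]
      exact ha
    exact_mod_cast h2.trans_lt hn₀
  exact H1 i (hi.trans hin) i' hin Hb H LDh hi ha B hB hPB V z hz

end Pool.V0Q
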